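import Pool.Agent.H79.QF.Targets

/-!
# Row RSM (board qfg_modules)
-/

set_option autoImplicit false

open Finset Pool.Agent.H79.QF

namespace Pool.Agent.H12.QF

/-- the weight is monotone in the set of the gates -/
theorem wt_mono {s : ℕ} (Q : GQ s) (v : Fin s → Prop) (j : ℕ) (D E : Fin s → Prop)
    (h : ∀ u, D u → E u) : Q.wt v j D ≤ Q.wt v j E := by
  unfold GQ.wt
  apply sum_le_sum
  intro i _
  by_cases h1 : ∃ u ∈ Q.ask i, D u
  · have h2 : ∃ u ∈ Q.ask i, E u := by
      obtain ⟨u, hu, hu2⟩ := h1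
      exact ⟨u, hu, h u hu2⟩
    rw [if_pos h1, if_pos h2]
  · rw [if_neg h1]
    split_ifs
    · positivity
    · exact le_refl 0

open Classical in
/-- for a third of the choices the weight stays -/
theorem third {s : ℕ} {Ω : Type} [Fintype Ω] (Q : GQ s) (v : Fin s → Prop) (j : ℕ)
    (D : Fin s → Prop) (W : ℝ) (hW : 0 < W) (hWD : W = Q.wt v j D) (A : Ω → Fin s → Prop)
    (hA : ∀ u, D u → Fintype.card Ω ≤ 2 * (univ.filter fun ω : Ω => A ω u).card) :
    Fintype.card Ω ≤ 3 * (univ.filter fun ω : Ω => W / 4 ≤ Q.wt v j fun u => D u ∧ A ω u).card := by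
  set f : Ω → ℝ := fun ω => Q.wt v j fun u => D u ∧ A ω u with hf
  have hle : ∀ ω, f ω ≤ W := by
    intro ω
    rw [hWD]
    exact wt_mono Q v j _ _ fun u hu => hu.1
  have hsum : W * Fintype.card Ω ≤ 2 * ∑ ω : Ω, f ω := by
    have e1 : ∑ ω : Ω, f ω = ∑ i, ∑ ω : Ω,
        (if ∃ u ∈ Q.ask i, D u ∧ A ω u then ‖Q.state v j i‖ ^ 2 else 0) := by
      rw [hf]
      unfold GQ.wt
      rw [sum_comm]
      refine sum_congr rfl fun i _ => sum_congr rfl fun ω _ => ?_
      by_cases h : ∃ u ∈ Q.ask i, D u ∧ A ω u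
      · rw [if_pos h, if_pos h]
      · rw [if_neg h, if_neg h]
    rw [e1, hWD]
    unfold GQ.wt
    rw [sum_mul, mul_sum]
    apply sum_le_sum
    intro i _
    by_cases h1 : ∃ u ∈ Q.ask i, D u
    · obtain ⟨u, hu, hu2⟩ := h1
      rw [if_pos ⟨u, hu, hu2⟩]
      have h2 : ∑ ω : Ω, (if A ω u then ‖Q.state v j i‖ ^ 2 else 0) ≤ ∑ ω : Ω,
          (if ∃ u ∈ Q.ask i, D u ∧ A ω u then ‖Q.state v j i‖ ^ 2 else 0) := by
        apply sum_le_sum
        intro ω _
        by_cases h3 : A ω u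
        · rw [if_pos h3, if_pos ⟨u, hu, hu2, h3⟩]
        · rw [if_neg h3]
          split_ifs
          · positivity
          · exact le_refl 0
      have h4 : ∑ ω : Ω, (if A ω u then ‖Q.state v j i‖ ^ 2 else 0) =
          ((univ.filter fun ω : Ω => A ω u).card : ℝ) * ‖Q.state v j i‖ ^ 2 := by
        rw [← sum_filter, sum_const, nsmul_eq_mul]
      have h5 : (Fintype.card Ω : ℝ) ≤ 2 * ((univ.filter fun ω : Ω => A ω u).card : ℝ) := by
        exact_mod_cast hA u hu2
      have h6 : (0 : ℝ) ≤ ‖Q.state v j i‖ ^ 2 := by positivity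
      calc ‖Q.state v j i‖ ^ 2 * (Fintype.card Ω : ℝ)
          ≤ ‖Q.state v j i‖ ^ 2 * (2 * ((univ.filter fun ω : Ω => A ω u).card : ℝ)) :=
            mul_le_mul_of_nonneg_left h5 h6
        _ = 2 * ∑ ω : Ω, (if A ω u then ‖Q.state v j i‖ ^ 2 else 0) := by
            rw [h4]
            ring
        _ ≤ _ := by linarith
    · rw [if_neg h1, zero_mul]
      apply mul_nonneg (by norm_num)
      apply sum_nonneg
      intro ω _
      split_ifs
      · positivity
      · exact le_refl 0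
  have hsplit : ∑ ω : Ω, f ω ≤ W * (univ.filter fun ω : Ω => W / 4 ≤ f ω).card +
      W / 4 * (univ.filter fun ω : Ω => ¬ W / 4 ≤ f ω).card := by
    rw [← sum_filter_add_sum_filter_not univ (fun ω : Ω => W / 4 ≤ f ω)]
    apply add_le_add
    · calc ∑ ω ∈ univ.filter (fun ω : Ω => W / 4 ≤ f ω), f ω
          ≤ ∑ ω ∈ univ.filter (fun ω : Ω => W / 4 ≤ f ω), W := sum_le_sum fun ω _ => hle ω
        _ = _ := by rw [sum_const, nsmul_eq_mul, mul_comm]
    · calc ∑ ω ∈ univ.filter (fun ω : Ω => ¬ W / 4 ≤ f ω), f ω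
          ≤ ∑ ω ∈ univ.filter (fun ω : Ω => ¬ W / 4 ≤ f ω), W / 4 :=
            sum_le_sum fun ω hω => (not_le.1 (mem_filter.1 hω).2).le
        _ = _ := by rw [sum_const, nsmul_eq_mul, mul_comm]
  have hcard : ((univ.filter fun ω : Ω => W / 4 ≤ f ω).card : ℝ) +
      (univ.filter fun ω : Ω => ¬ W / 4 ≤ f ω).card = Fintype.card Ω := by
    have h7 := card_filter_add_card_filter_not (s := (univ : Finset Ω)) (fun ω : Ω => W / 4 ≤ f ω)
    rw [card_univ] at h7
    exact_mod_cast h7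
  have hfin : (Fintype.card Ω : ℝ) ≤ 3 * (univ.filter fun ω : Ω => W / 4 ≤ f ω).card := by
    set a : ℝ := ((univ.filter fun ω : Ω => W / 4 ≤ f ω).card : ℝ)
    set b : ℝ := ((univ.filter fun ω : Ω => ¬ W / 4 ≤ f ω).card : ℝ)
    have h8 : W * (Fintype.card Ω : ℝ) ≤ W * (2 * a + b / 2) := by
      calc W * (Fintype.card Ω : ℝ) ≤ 2 * ∑ ω : Ω, f ω := hsum
        _ ≤ 2 * (W * a + W / 4 * b) := by linarith
        _ = W * (2 * a + b / 2) := by ring
    have h9 : (Fintype.card Ω : ℝ) ≤ 2 * a + b / 2 := le_of_mul_le_mul_left h8 hW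
    linarith
  exact_mod_cast hfin

theorem pf_RSM : T_RSM := by
  classical
  intro R s Ω X _ _ _ K Q g hg h
  set good : (Fin R → Ω) → ℕ → Prop := fun y t => ∃ j < Q.T, g / 4 ≤ Q.wt (K.a y t) j fun u =>
    ¬ K.a y t u ∧ K.a y (t + 1) u with hgood
  have key : ∀ (t : Fin R) (y : Fin R → Ω), Fintype.card Ω ≤
      3 * (univ.filter fun ω : Ω => good (Function.update y t ω) t.1).card := by
    intro t y
    obtain ⟨j, hj, hw⟩ := h y t.1 t.2
    have hup : ∀ ω : Ω, K.a (Function.update y t ω) t.1 = K.a y t.1 := by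
      intro ω
      refine (K.dep (Function.update y t ω) y t.1 ?_).1
      intro i hi
      rw [Function.update_of_ne]
      intro hit
      rw [hit] at hi
      exact lt_irrefl _ hi
    have h3 := third Q (K.a y t.1) j (fun u => ¬ K.a y t.1 u ∧ K.B y t.1 u) _
      (lt_of_lt_of_le hg hw) rfl (fun (ω : Ω) u => K.a (Function.update y t ω) (t.1 + 1) u) (by
        intro u hu
        have hB := hu.2 t.2
        have e1 : Nat.card {ω : Ω // ¬ K.a (Function.update y ⟨t.1, t.2⟩ ω) (t.1 + 1) u} =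
            (univ.filter fun ω : Ω => ¬ K.a (Function.update y t ω) (t.1 + 1) u).card := by
          rw [Nat.card_eq_fintype_card, Fintype.card_subtype]
        rw [e1] at hB
        have h7 := card_filter_add_card_filter_not (s := (univ : Finset Ω))
          (fun ω : Ω => K.a (Function.update y t ω) (t.1 + 1) u)
        rw [card_univ] at h7
        omega)
    refine h3.trans (Nat.mul_le_mul_left 3 (card_le_card ?_))
    intro ω hω
    rw [mem_filter] at hω ⊢
    refine ⟨mem_univ _, j, hj, ?_⟩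
    rw [hup ω]
    calc g / 4 ≤ Q.wt (K.a y t.1) j (fun u => ¬ K.a y t.1 u ∧ K.B y t.1 u) / 4 := by linarith
      _ ≤ _ := hω.2
      _ ≤ _ := wt_mono Q _ j _ _ fun u hu => ⟨hu.1.1, hu.2⟩
  have hcount : ∀ t : Fin R, (Fintype.card (Fin R → Ω) : ℝ) ≤
      3 * ∑ y : Fin R → Ω, (if good y t.1 then (1 : ℝ) else 0) := by
    intro t
    have hΩ : (0 : ℝ) < Fintype.card Ω := by exact_mod_cast Fintype.card_pos
    have h1 := Pool.Agent.H78.FG.sum_update t (fun y : Fin R → Ω => if good y t.1 then (1 : ℝ) else 0)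
    have h2 : (Fintype.card (Fin R → Ω) : ℝ) * Fintype.card Ω ≤
        3 * ∑ y : Fin R → Ω, ∑ ω : Ω, (if good (Function.update y t ω) t.1 then (1 : ℝ) else 0) := by
      rw [mul_sum, ← nsmul_eq_mul, ← card_univ (α := Fin R → Ω), ← sum_const]
      apply sum_le_sum
      intro y _
      have e2 : ∑ ω : Ω, (if good (Function.update y t ω) t.1 then (1 : ℝ) else 0) =
          ((univ.filter fun ω : Ω => good (Function.update y t ω) t.1).card : ℝ) := by
        rw [card_filter]
        push_cast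
        rfl
      rw [e2]
      exact_mod_cast key t y
    rw [h1] at h2
    have h3 : (Fintype.card (Fin R → Ω) : ℝ) * Fintype.card Ω ≤
        (3 * ∑ y : Fin R → Ω, (if good y t.1 then (1 : ℝ) else 0)) * Fintype.card Ω := by
      calc _ ≤ _ := h2
        _ = _ := by ring
    exact le_of_mul_le_mul_right h3 hΩ
  have htot : ∑ y : Fin R → Ω, (R : ℝ) ≤
      ∑ y : Fin R → Ω, 3 * ∑ t : Fin R, (if good y t.1 then (1 : ℝ) else 0) := by
    calc ∑ y : Fin R → Ω, (R : ℝ) = ∑ t : Fin R, (Fintype.card (Fin R → Ω) : ℝ) := by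
          rw [sum_const, sum_const, nsmul_eq_mul, nsmul_eq_mul, card_univ, card_univ,
            Fintype.card_fin, mul_comm]
      _ ≤ ∑ t : Fin R, 3 * ∑ y : Fin R → Ω, (if good y t.1 then (1 : ℝ) else 0) :=
          sum_le_sum fun t _ => hcount t
      _ = _ := by
          rw [← mul_sum, ← mul_sum, sum_comm]
  have hne : (univ : Finset (Fin R → Ω)).Nonempty := univ_nonempty
  obtain ⟨y, -, hy⟩ := exists_le_of_sum_le hne htot
  refine ⟨y, ?_⟩
  have e3 : Nat.card {t : ℕ // t < R ∧ good y t} = (univ.filter fun t : Fin R => good y t.1).card := by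
    rw [← Fintype.card_subtype, ← Nat.card_eq_fintype_card]
    refine Nat.card_congr ⟨fun t => ⟨⟨t.1, t.2.1⟩, t.2.2⟩, fun t => ⟨t.1.1, t.1.2, t.2⟩,
      fun t => rfl, fun t => rfl⟩
  have e4 : ∑ t : Fin R, (if good y t.1 then (1 : ℝ) else 0) =
      ((univ.filter fun t : Fin R => good y t.1).card : ℝ) := by
    rw [card_filter]
    push_cast
    rfl
  rw [e4] at hy
  have hy' : R ≤ 3 * (univ.filter fun t : Fin R => good y t.1).card := by exact_mod_cast hy
  rw [← e3] at hy'
  exact hy'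

end Pool.Agent.H12.QF
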